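import Pool.Agent.W483.FB.Stm2

/-!
# The bound in terms of spectral decompositions, from the values of the states and the rates
-/

open Finset Matrix Filter
open scoped Topology

namespace Pool.Agent.W32.FB

open Pool.Agent.H390R2.LP Pool.Agent.H235R2.QLP Pool.Agent.W483.FB

lemma H2_eq (y : ℝ) : H2 y = Real.binEntropy y / Real.log 2 := by
  unfold H2 Real.binEntropy
  rw [Real.logb, Real.logb, Real.log_inv, Real.log_inv]
  ring

lemma h_eq (x : ℝ) : h x = hM x / Real.log 2 := by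
  unfold h hM
  rw [H2_eq, ← Real.binEntropy_one_sub]
  congr 2
  ring

lemma h_cont : Continuous h := by
  have e : h = fun x => Real.binEntropy ((1 + √(1 - x)) / 2) / Real.log 2 := by
    funext x; rw [h_eq]; rfl
  rw [e]
  have := Real.binEntropy_continuous
  fun_prop

theorem t_gen (hv : S_value) (hr : S_rate) : S_gen := by
  intro n a x α x' ha hα hx0 hx1 hc δ hδ hs
  refine hr δ _ hδ fun ε hε => ?_
  have hF : Tendsto (fun t : ℝ => ∑ j, h (t * x j) - ∑ j, h (t * x' j)) (𝓝 1)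
      (𝓝 (∑ j, h (1 * x j) - ∑ j, h (1 * x' j))) := by
    have : Continuous (fun t : ℝ => ∑ j, h (t * x j) - ∑ j, h (t * x' j)) := by
      have := h_cont
      fun_prop
    exact this.tendsto 1
  have hG : Tendsto (fun t : ℝ => (1 - √t * (1 - 2 * δ)) / 2) (𝓝 1)
      (𝓝 ((1 - √1 * (1 - 2 * δ)) / 2)) := by
    have : Continuous (fun t : ℝ => (1 - √t * (1 - 2 * δ)) / 2) := by fun_prop
    exact this.tendsto 1
  have e1 := hF.eventually (gt_mem_nhds (show ∑ j, h (1 * x j) - ∑ j, h (1 * x' j) <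
    (∑ j, h (x j) - ∑ j, h (x' j)) + ε by simp only [one_mul]; linarith))
  have e2 := hG.eventually (gt_mem_nhds (show (1 - √1 * (1 - 2 * δ)) / 2 < δ + ε by
    rw [Real.sqrt_one]; linarith))
  have e3 : ∀ᶠ t : ℝ in 𝓝[<] 1, t ∈ Set.Ioo (0 : ℝ) 1 := Ioo_mem_nhdsLT one_pos
  obtain ⟨t, ⟨h1, h2⟩, h3⟩ :=
    (((e1.and e2).filter_mono nhdsWithin_le_nhds).and e3).exists
  obtain ⟨Ω, i1, i2, s, hcc, hE⟩ := hv n a (fun j => t * x j) α (fun j => t * x' j) ha hα
    (fun j => mul_nonneg h3.1.le (hx0 j))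
    (fun j => lt_of_le_of_lt (mul_le_of_le_one_right h3.1.le (hx1 j)) h3.2)
    (fun i l => by
      have := hc i l
      calc ∑ k, t * x k * a k i.succ * a k l.succ = t * ∑ k, x k * a k i.succ * a k l.succ := by
            rw [Finset.mul_sum]; exact Finset.sum_congr rfl fun k _ => by ring
        _ = t * ∑ k, x' k * α k i * α k l := by rw [this]
        _ = _ := by rw [Finset.mul_sum]; exact Finset.sum_congr rfl fun k _ => by ring)
  refine ⟨Ω, i1, i2, s, ?_, ?_⟩
  · rw [hE]
    have e4 : ∑ j, a j 0 ^ 2 * √(t * x j) = √t * (1 - 2 * δ) := by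
      rw [← hs, Finset.mul_sum]
      refine Finset.sum_congr rfl fun j _ => ?_
      rw [Real.sqrt_mul h3.1.le]
      ring
    rw [e4]
    exact h2.le
  · rw [hcc]
    have hl : Real.log 2 ≠ 0 := (Real.log_pos (by norm_num)).ne'
    have e5 : 1 - (Real.log 2 + ∑ j, hM (t * x' j) - ∑ j, hM (t * x j)) / Real.log 2 =
        ∑ j, h (t * x j) - ∑ j, h (t * x' j) := by
      simp only [h_eq, ← Finset.sum_div]
      field_simp
      ring
    rw [e5]
    exact h1.le

end Pool.Agent.W32.FB
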